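import Pool.Agent.W2helper56.PK.Stm
import Pool.Agent.H620R2.Gauge.A2

/-!
# The one-way function: it is computable, and one-way in the blind world
-/

set_option autoImplicit false

namespace Pool.Agent.W2helper98.PK

open Pool.Agent.NPC Pool.Agent.H622R2 Pool.Agent.H620R2.Gauge Pool.Agent.W2helper56.PK

/-! ### D0 -/

theorem map_lt_range (m j : ℕ) (h : j ≤ m) : (List.range m).map (fun i => decide (i < j)) =
    List.replicate j true ++ List.replicate (m - j) false := by
  obtain ⟨d, rfl⟩ := Nat.exists_eq_add_of_le h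
  rw [List.range_add, List.map_append]
  congr 1
  · rw [List.eq_replicate_iff]
    refine ⟨by simp, ?_⟩
    intro b hb
    simp only [List.mem_map, List.mem_range] at hb
    obtain ⟨i, hi, rfl⟩ := hb
    simpa using hi
  · rw [List.eq_replicate_iff]
    refine ⟨by simp, ?_⟩
    intro b hb
    simp only [List.mem_map, List.mem_range] at hb
    obtain ⟨i, ⟨k, hk, rfl⟩, rfl⟩ := hb
    simp

theorem p_owf0 : P_owf0 := by
  intro O
  have hn : UPoly (fun x : List Bool => 3 * x.length) :=
    UPoly.mul (UPoly.const 3) (UPoly.length Poly.id)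
  have hF : Poly (fun p : List Bool × ℕ => false :: pairBits p.1
      ((List.range (3 * p.1.length)).map fun i => decide (i < p.2))) := by
    refine Poly.cons (NPC.Poly.const false) (poly_pairBits (Poly.fst Poly.id) ?_)
    exact NPC.Poly.map (F := fun (p : List Bool × ℕ) i => decide (i < p.2))
      (hn.comp (Poly.fst Poly.id)).range
      (Poly.decide_lt (Poly.snd Poly.id) (Poly.snd (Poly.fst Poly.id)))
  have hQ : Poly (fun x : List Bool => (List.range (3 * x.length)).map fun j =>
      false :: pairBits x ((List.range (3 * x.length)).map fun i => decide (i < j))) :=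
    NPC.Poly.map (F := fun (x : List Bool) j =>
      false :: pairBits x ((List.range (3 * x.length)).map fun i => decide (i < j))) hn.range hF
  have h := IsFP.tt (A := O) (H := fun p : List Bool × List Bool => p.2) hQ (Poly.snd Poly.id)
  have he : (fO O) = fun x : List Bool => ((List.range (3 * x.length)).map fun j =>
      false :: pairBits x ((List.range (3 * x.length)).map fun i => decide (i < j))).map O := by
    funext x
    unfold fO
    rw [List.map_map]
    refine List.map_congr_left fun j hj => ?_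
    rw [List.mem_range] at hj
    simp only [Function.comp]
    rw [map_lt_range _ _ hj.le, bpos]
  rw [he]
  exact h

/-! ### D1 -/

theorem card_prod_le {α β : Type} [Finite α] [Finite β] (P : α → β → Prop) (k : ℕ)
    (h : ∀ b, Nat.card {a // P a b} ≤ k) :
    Nat.card {p : α × β // P p.1 p.2} ≤ k * Nat.card β := by
  have : Fintype β := Fintype.ofFinite β
  let e : {p : α × β // P p.1 p.2} ≃ Σ b, {a // P a b} :=
    { toFun := fun p => ⟨p.1.2, ⟨p.1.1, p.2⟩⟩
      invFun := fun s => ⟨(s.2.1, s.1), s.2.2⟩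
      left_inv := fun _ => rfl
      right_inv := fun _ => rfl }
  rw [Nat.card_congr e, Nat.card_sigma]
  refine (Finset.sum_le_card_nsmul _ _ k fun b _ => h b).trans ?_
  rw [smul_eq_mul, Finset.card_univ, Nat.card_eq_fintype_card, mul_comm]

theorem length_bpos {x : List Bool} {j : ℕ} (hj : j ≤ 3 * x.length) :
    (bpos x j).length = 5 * x.length + 2 := by
  unfold bpos
  rw [List.length_cons, length_pairBits, List.length_append, List.length_replicate,
    List.length_replicate]
  omega

theorem unpair_bpos (x : List Bool) (j : ℕ) : (unpair (bpos x j).tail).1 = x := by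
  unfold bpos
  rw [List.tail_cons, unpair_pairBits]

theorem bpos_left {x x' : List Bool} {j j' : ℕ} (h : bpos x j = bpos x' j') : x = x' := by
  rw [← unpair_bpos x j, h, unpair_bpos]

theorem replicate_inj (m j j' : ℕ) (h : List.replicate j true ++ List.replicate (m - j) false =
      List.replicate j' true ++ List.replicate (m - j') false) : j = j' := by
  have h1 := congrArg (List.count true) h
  simpa [List.count_append, List.count_replicate] using h1

theorem bpos_right {x : List Bool} {j j' : ℕ} (h : bpos x j = bpos x j') : j = j' := by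
  unfold bpos at h
  have h1 := congrArg (fun z => (unpair z.tail).2) h
  simp only [List.tail_cons, unpair_pairBits] at h1
  exact replicate_inj _ j j' h1

section

variable (E Λ : Oracle) {n m : ℕ}

/-- the position of a bit -/
def bb (hm : 5 * n + 2 < m) (x : Coins n) (j : Fin (3 * n)) : Pos 0 m :=
  ⟨bpos (List.ofFn x) j, Nat.zero_le _, by
    rw [length_bpos (by rw [List.length_ofFn]; exact j.2.le), List.length_ofFn]
    exact hm⟩

theorem bb_inj (hm : 5 * n + 2 < m) (x : Coins n) : Function.Injective (bb hm x) := by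
  intro j j' h
  have h1 : bpos (List.ofFn x) j = bpos (List.ofFn x) j' := congrArg Subtype.val h
  exact Fin.ext (bpos_right h1)

/-- the blind oracle -/
noncomputable def OB (n : ℕ) (ω : Pos 0 m → Bool) : Oracle := blind (5 * n + 2) (Ok E (ext Λ ω))

theorem OB_bpos (hm : 5 * n + 2 < m) (ω : Pos 0 m → Bool) (x : Coins n) (j : Fin (3 * n)) :
    OB E Λ n ω (bpos (List.ofFn x) j) = ω (bb hm x j) := by
  have h0 := (bb hm x j).2
  have h1 : ¬ (5 * n + 2 ≤ (bpos (List.ofFn x) (j : ℕ)).length ∧
      (bpos (List.ofFn x) (j : ℕ)).take 2 = [true, true]) := by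
    rintro ⟨_, h⟩
    simp [bpos] at h
  unfold OB blind
  rw [if_neg h1]
  have h2 : Ok E (ext Λ ω) (bpos (List.ofFn x) (j : ℕ)) = ext Λ ω (bpos (List.ofFn x) (j : ℕ)) :=
    rfl
  rw [h2]
  unfold ext
  exact dif_pos h0

theorem ext_eq {ω ω' : Pos 0 m → Bool} {z : List Bool} (h : ∀ p : Pos 0 m, p.1 = z → ω' p = ω p) :
    ext Λ ω' z = ext Λ ω z := by
  unfold ext
  split_ifs with h1
  · exact h _ rfl
  · rfl

theorem extend_ne (hm : 5 * n + 2 < m) (ω : Pos 0 m → Bool) (x : Coins n)
    (y : Fin (3 * n) → Bool) {p : Pos 0 m} (h : ∀ j : Fin (3 * n), p.1 ≠ bpos (List.ofFn x) j) :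
    Function.extend (bb hm x) y ω p = ω p := by
  apply Function.extend_apply'
  rintro ⟨j, hj⟩
  exact h j (by rw [← hj]; rfl)

theorem OB_ne (hm : 5 * n + 2 < m) (ω : Pos 0 m → Bool) (x : Coins n) (y : Fin (3 * n) → Bool)
    {z : List Bool} (h : ∀ j : Fin (3 * n), z ≠ bpos (List.ofFn x) j) :
    OB E Λ n (Function.extend (bb hm x) y ω) z = OB E Λ n ω z := by
  unfold OB blind
  split_ifs with h1
  · rfl
  rcases Nat.lt_or_ge z.length (5 * n + 2) with h2 | h2
  · refine Ok_congr (t := 5 * n + 2) (fun _ _ => rfl) (fun u hu => ?_) z h2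
    refine ext_eq Λ fun p hp => extend_ne hm ω x y fun j hj => ?_
    rw [hp] at hj
    rw [hj, length_bpos (by rw [List.length_ofFn]; exact j.2.le), List.length_ofFn] at hu
    omega
  · rcases z with _ | ⟨c, z⟩
    · rfl
    cases c with
    | false =>
      rw [Ok_false, Ok_false]
      refine ext_eq Λ fun p hp => extend_ne hm ω x y fun j hj => h j ?_
      rw [← hp, hj]
    | true =>
      rcases z with _ | ⟨c, z⟩
      · rfl
      cases c with
      | false => rfl
      | true => exact absurd ⟨h2, rfl⟩ h1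

theorem fO_length (O : Oracle) (x : List Bool) : (fO O x).length = 3 * x.length := by simp [fO]

theorem fO_extend (hm : 5 * n + 2 < m) (ω : Pos 0 m → Bool) (x : Coins n)
    (y : Fin (3 * n) → Bool) :
    fO (OB E Λ n (Function.extend (bb hm x) y ω)) (List.ofFn x) = List.ofFn y := by
  have hx : (List.ofFn x).length = n := List.length_ofFn
  refine List.ext_getElem (by rw [fO_length, hx, List.length_ofFn]) fun j h1 h2 => ?_
  rw [fO_length, hx] at h1
  have h3 := OB_bpos E Λ hm (Function.extend (bb hm x) y ω) x ⟨j, h1⟩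
  rw [(bb_inj hm x).extend_apply] at h3
  simp only [fO, List.getElem_map, List.getElem_range, List.getElem_ofFn]
  exact h3

theorem fO_ne (hm : 5 * n + 2 < m) (ω : Pos 0 m → Bool) (x : Coins n)
    (y : Fin (3 * n) → Bool) {x' : List Bool} (h : x' ≠ List.ofFn x) :
    fO (OB E Λ n (Function.extend (bb hm x) y ω)) x' = fO (OB E Λ n ω) x' := by
  unfold fO
  refine List.map_congr_left fun j _ => OB_ne E Λ hm ω x y fun j' hj => h (bpos_left hj)

/-- the exchange of the bits for `x` with fresh bits -/
noncomputable def swp (hm : 5 * n + 2 < m) (p : (Coins n × (Pos 0 m → Bool)) × (Fin (3 * n) → Bool)) :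
    (Coins n × (Pos 0 m → Bool)) × (Fin (3 * n) → Bool) :=
  ((p.1.1, Function.extend (bb hm p.1.1) p.2 p.1.2), fun j => p.1.2 (bb hm p.1.1 j))

theorem swp_swp (hm : 5 * n + 2 < m) : Function.Involutive (swp (n := n) hm) := by
  rintro ⟨⟨x, ω⟩, y⟩
  unfold swp
  simp only [Prod.mk.injEq, true_and]
  constructor
  · funext p
    by_cases hp : ∃ j, bb hm x j = p
    · obtain ⟨j, rfl⟩ := hp
      rw [(bb_inj hm x).extend_apply]
    · rw [Function.extend_apply' _ _ _ hp, Function.extend_apply' _ _ _ hp]
  · funext j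
    rw [(bb_inj hm x).extend_apply]

end

theorem card_asked {n : ℕ} (l : List (List Bool)) :
    Nat.card {x : Coins n // ∃ j : Fin (3 * n), bpos (List.ofFn x) j ∈ l} ≤ l.length := by
  classical
  rw [Nat.card_eq_fintype_card, Fintype.card_subtype]
  have h1 : ((Finset.univ.filter fun x : Coins n =>
      ∃ j : Fin (3 * n), bpos (List.ofFn x) j ∈ l)).card ≤
      ((l.map fun z => (unpair z.tail).1).toFinset).card := by
    refine Finset.card_le_card_of_injOn (fun x => List.ofFn x) ?_ ?_
    · intro x hx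
      simp only [Finset.coe_filter, Finset.mem_univ, true_and, Set.mem_ofPred_eq] at hx
      obtain ⟨j, hj⟩ := hx
      simp only [List.coe_toFinset, List.mem_map, Set.mem_ofPred_eq]
      exact ⟨_, hj, unpair_bpos _ _⟩
    · intro x _ x' _ h
      exact List.ofFn_injective h
  refine h1.trans ((List.toFinset_card_le _).trans ?_)
  rw [List.length_map]

theorem card_range {n : ℕ} (O : Oracle) :
    Nat.card {y : Fin (3 * n) → Bool // ∃ x : Coins n, fO O (List.ofFn x) = List.ofFn y} ≤
      Nat.card (Coins n) := by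
  refine Nat.card_le_card_of_injective (fun y => y.2.choose) ?_
  intro y y' h
  have h1 := y.2.choose_spec
  have h2 := y'.2.choose_spec
  dsimp only at h
  rw [h, h2] at h1
  exact Subtype.ext (List.ofFn_injective h1.symm)

theorem card_eq_one {n : ℕ} (z : List Bool) :
    Nat.card {x : Coins n // z = List.ofFn x} ≤ 1 := by
  have : Subsingleton {x : Coins n // z = List.ofFn x} := by
    refine ⟨fun x x' => Subtype.ext (List.ofFn_injective ?_)⟩
    rw [← x.2, ← x'.2]
  rw [Nat.card_eq_fintype_card]
  exact Fintype.card_le_one_iff_subsingleton.2 this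

theorem card_or_le {α : Type} [Finite α] (P Q R : α → Prop) (h : ∀ a, P a → Q a ∨ R a) :
    Nat.card {a // P a} ≤ Nat.card {a // Q a} + Nat.card {a // R a} := by
  have h1 : {a | P a} ⊆ {a | Q a} ∪ {a | R a} := fun a ha => h a ha
  have h2 := (Set.ncard_le_ncard h1 (Set.toFinite _)).trans (Set.ncard_union_le _ _)
  exact h2

theorem p_owf1 : P_owf1 := by
  intro E Λ n m q I hm hI
  set Ω := Pos 0 m → Bool with hΩ
  set Y := Fin (3 * n) → Bool with hY
  let ev : Coins n × Ω → Prop := fun t =>
    fO (OB E Λ n t.2) ((I (fO (OB E Λ n t.2) (List.ofFn t.1))).run (OB E Λ n t.2)) =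
      fO (OB E Λ n t.2) (List.ofFn t.1)
  change prob ev ≤ _
  -- exchange
  have h1 : Nat.card {t // ev t} * Nat.card Y =
      Nat.card {p : (Coins n × Ω) × Y // ev (swp hm p).1} := by
    have e1 : {p : (Coins n × Ω) × Y // ev (swp hm p).1} ≃ {p : (Coins n × Ω) × Y // ev p.1} :=
      Equiv.subtypeEquiv (swp_swp hm).toPerm fun p => Iff.rfl
    have e2 : {p : (Coins n × Ω) × Y // ev p.1} ≃ {t // ev t} × Y :=
      { toFun := fun p => (⟨p.1.1, p.2⟩, p.1.2)
        invFun := fun p => ⟨(p.1.1, p.2), p.1.2⟩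
        left_inv := fun _ => rfl
        right_inv := fun _ => rfl }
    rw [Nat.card_congr e1, Nat.card_congr e2, Nat.card_prod]
  -- the three cases
  let PA : Coins n → Ω × Y → Prop := fun x s =>
    ∃ j : Fin (3 * n), bpos (List.ofFn x) j ∈ (I (List.ofFn s.2)).qs (OB E Λ n s.1)
  let PB : Coins n → Ω × Y → Prop := fun x s =>
    (I (List.ofFn s.2)).run (OB E Λ n s.1) = List.ofFn x
  let PC : Y → Coins n × Ω → Prop := fun y s =>
    ∃ x : Coins n, fO (OB E Λ n s.2) (List.ofFn x) = List.ofFn y
  have h2 : ∀ p : (Coins n × Ω) × Y, ev (swp hm p).1 →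
      PA p.1.1 (p.1.2, p.2) ∨ (PB p.1.1 (p.1.2, p.2) ∨ PC p.2 p.1) := by
    rintro ⟨⟨x, ω⟩, y⟩ hp
    by_contra hcon
    rw [not_or, not_or] at hcon
    obtain ⟨hA, hB, hC⟩ := hcon
    dsimp only [ev, swp] at hp
    rw [fO_extend] at hp
    have hrun := (DT.run_congr (O := OB E Λ n ω)
      (O' := OB E Λ n (Function.extend (bb hm x) y ω)) (D := I (List.ofFn y)) fun z hz =>
        OB_ne E Λ hm ω x y fun j hj => hA ⟨j, by rw [← hj]; exact hz⟩).1
    rw [hrun] at hp
    have hne : (I (List.ofFn y)).run (OB E Λ n ω) ≠ List.ofFn x := hB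
    rw [fO_ne E Λ hm ω x y hne] at hp
    have hlen := congrArg List.length hp
    rw [fO_length, List.length_ofFn] at hlen
    have hlen' : ((I (List.ofFn y)).run (OB E Λ n ω)).length = n := by omega
    have hx' : ∀ z : List Bool, z.length = n → ∃ x : Coins n, List.ofFn x = z := by
      intro z hz
      subst hz
      exact ⟨fun i => z.get i, List.ofFn_get z⟩
    obtain ⟨x', hx'⟩ := hx' _ hlen'
    refine hC ⟨x', ?_⟩
    rw [hx']
    exact hp
  have h3 : Nat.card {p : (Coins n × Ω) × Y // ev (swp hm p).1} ≤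
      q * Nat.card (Ω × Y) + (1 * Nat.card (Ω × Y) + Nat.card (Coins n) * Nat.card (Coins n × Ω)) := by
    refine (card_or_le _ _ _ h2).trans (Nat.add_le_add ?_ ((card_or_le _ _ _ fun _ h => h).trans
      (Nat.add_le_add ?_ ?_)))
    · have e : {p : (Coins n × Ω) × Y // PA p.1.1 (p.1.2, p.2)} ≃
          {p : Coins n × (Ω × Y) // PA p.1 p.2} :=
        Equiv.subtypeEquiv (Equiv.prodAssoc _ _ _) fun p => Iff.rfl
      rw [Nat.card_congr e]
      exact card_prod_le PA q fun s => (card_asked _).trans (DT.length_qs _ (hI _))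
    · have e : {p : (Coins n × Ω) × Y // PB p.1.1 (p.1.2, p.2)} ≃
          {p : Coins n × (Ω × Y) // PB p.1 p.2} :=
        Equiv.subtypeEquiv (Equiv.prodAssoc _ _ _) fun p => Iff.rfl
      rw [Nat.card_congr e]
      exact card_prod_le PB 1 fun s => card_eq_one _
    · have e : {p : (Coins n × Ω) × Y // PC p.2 p.1} ≃ {p : Y × (Coins n × Ω) // PC p.1 p.2} :=
        Equiv.subtypeEquiv (Equiv.prodComm _ _) fun p => Iff.rfl
      rw [Nat.card_congr e]
      exact card_prod_le PC _ fun s => card_range _
  have hcX : Nat.card (Coins n) = 2 ^ n := by simp [Coins]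
  have hcY : Nat.card Y = 2 ^ (3 * n) := by simp [hY]
  have hΩpos : 0 < Nat.card Ω := Nat.card_pos
  rw [← h1, Nat.card_prod, Nat.card_prod, hcX, hcY] at h3
  -- conclusion
  have h4 : Nat.card {t // ev t} ≤ (q + 2) * Nat.card Ω := by
    have h5 : (2 : ℕ) ^ (3 * n) = 2 ^ n * 2 ^ n * 2 ^ n := by
      rw [← pow_add, ← pow_add]
      congr 1
      omega
    have h6 : 2 ^ n * (2 ^ n * Nat.card Ω) ≤ 2 ^ (3 * n) * Nat.card Ω := by
      rw [h5]
      have : 1 ≤ 2 ^ n := Nat.one_le_two_pow
      nlinarith [Nat.zero_le (2 ^ n * 2 ^ n * Nat.card Ω)]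
    have h7 : Nat.card {t // ev t} * 2 ^ (3 * n) ≤ ((q + 2) * Nat.card Ω) * 2 ^ (3 * n) := by
      nlinarith [h3, h6]
    exact Nat.le_of_mul_le_mul_right h7 (by positivity)
  unfold prob
  rw [← Nat.card_eq_fintype_card (α := Coins n × Ω), Nat.card_prod, hcX]
  have hΩ' : (0 : ℝ) < Nat.card Ω := by exact_mod_cast hΩpos
  have h8 : ((Nat.card {t // ev t} : ℕ) : ℝ) ≤ ((q : ℝ) + 2) * Nat.card Ω := by exact_mod_cast h4
  rw [div_le_div_iff₀ (by positivity) (by positivity)]
  push_cast
  nlinarith [h8, show (0 : ℝ) < 2 ^ n by positivity]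

end Pool.Agent.W2helper98.PK
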